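import Pool.Agent.N926.Qd.K
import Pool.Agent.N926.Sup2.Cg

set_option autoImplicit false

namespace Pool.Agent.Results.MP_d636e9_nt.AllThree

open Finset

/-- `r ≡ s (mod p^m)`: `r - s = p^m u` with `u` a rational whose denominator is prime to `p` -/
def Congr (p m : ℕ) (r s : ℚ) : Prop := ∃ u : ℚ, ¬ p ∣ u.den ∧ r - s = (p : ℚ) ^ m * u

/-- the Lucas sequence `u_k(A,B)`: `u_0 = 0`, `u_1 = 1`, `u_{k+1} = A u_k - B u_{k-1}` -/
def lucas (A B : ℤ) : ℕ → ℤ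
  | 0 => 0
  | 1 => 1
  | (k + 2) => A * lucas A B (k + 1) - B * lucas A B k

/-- `∑_{k=0}^{p-1} u_k(4,1)/4^k C(2k,k)^2` -/
def S (p : ℕ) : ℚ := ∑ k ∈ range p, (lucas 4 1 k : ℚ) / 4 ^ k * ((2 * k).choose k : ℚ) ^ 2

/-- `∑_{k=0}^{p-1} k u_k(4,1)/4^k C(2k,k)^2` -/
def T (p : ℕ) : ℚ := ∑ k ∈ range p, (k : ℚ) * (lucas 4 1 k : ℚ) / 4 ^ k * ((2 * k).choose k : ℚ) ^ 2

open Pool.Agent.N926.F54 Pool.Agent.N926.F37 Pool.Agent.N926.Sup2 Pool.Agent.N926.Sup Pool.Agent.N926.Qd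

theorem eE_lucas (k : ℕ) : (eE ^ k).im = (lucas 4 1 k : ℚ) ∧ (eE ^ (k+1)).im = (lucas 4 1 (k+1) : ℚ) := by
  induction k with
  | zero =>
    refine ⟨?_, ?_⟩
    · rw [pow_zero, QuadraticAlgebra.im_one]; simp [lucas]
    · rw [zero_add, pow_one]; simp [lucas, eE]
  | succ k ih =>
    refine ⟨ih.2, ?_⟩
    have e : (eE ^ (k+1+1)).im = 4 * (eE ^ (k+1)).im - (eE ^ k).im := by
      rw [pow_succ, pow_succ]
      unfold eE
      simp only [QuadraticAlgebra.im_mul, QuadraticAlgebra.re_mul]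
      ring
    rw [e, ih.1, ih.2]
    show _ = ((4 * lucas 4 1 (k+1) - 1 * lucas 4 1 k : ℤ) : ℚ)
    push_cast; ring

theorem Sx_im (c : ℕ → ℚ) (N : ℕ) : (Sx c N N926.Qd.x1).im = ∑ k ∈ range N, c k * (4 ^ k * (lucas 4 1 k : ℚ)) := by
  unfold Sx
  induction N with
  | zero => simp
  | succ N ih =>
    rw [sum_range_succ, sum_range_succ, ← ih, QuadraticAlgebra.im_add]
    congr 1
    rw [se3, mul_pow, ← map_pow, QuadraticAlgebra.im_mul, QuadraticAlgebra.im_mul, A3_re, A3_im, A3_re, A3_im, (eE_lucas N).1]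
    ring

theorem tail {p : ℕ} [hp : Fact p.Prime] (h2 : p ≠ 2) {h : ℕ} (hh : p = 2*h+1) (W : ℕ → ℚ) (hW : ∀ k, Dv p 0 (W k)) :
    Dv p 2 ((Sx (fun k => W k * N926.Qd.tt k) p N926.Qd.x1).im - (Sx (fun k => W k * N926.Qd.tt k) (h+1) N926.Qd.x1).im) := by
  have e : Sx (fun k => W k * N926.Qd.tt k) p N926.Qd.x1 - Sx (fun k => W k * N926.Qd.tt k) (h+1) N926.Qd.x1 =
      ∑ k ∈ range h, AA3 (W (h+1+k) * N926.Qd.tt (h+1+k)) * N926.Qd.x1 ^ (h+1+k) := by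
    unfold Sx
    have : range p = range ((h+1)+h) := by congr 1; omega
    rw [this, sum_range_add]
    ring
  have h1 : Dr p 2 (∑ k ∈ range h, AA3 (W (h+1+k) * N926.Qd.tt (h+1+k)) * N926.Qd.x1 ^ (h+1+k)) := Dr.sum _ _ fun k hk => by
    rw [mem_range] at hk
    refine (Dr.A ?_).mul0 (x1_int.pow _)
    have := (tt_van h2 hh (show h < h+1+k by omega) (show h+1+k < p by omega)).mul0 (hW (h+1+k))
    refine Dv_eq ?_ this
    ring
  rw [← e] at h1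
  exact h1.2

theorem S_eq (p : ℕ) : S p = (Sx N926.Qd.tt p N926.Qd.x1).im := by
  rw [Sx_im]
  unfold S
  refine sum_congr rfl fun k _ => ?_
  rw [N926.Qd.tt_eq]
  have : (16:ℚ)^k = 4^k * 4^k := by rw [← mul_pow]; norm_num
  rw [this]
  have h4 : (4:ℚ)^k ≠ 0 := by positivity
  field_simp

theorem T_eq (p : ℕ) : T p = (Sx (fun k => k * N926.Qd.tt k) p N926.Qd.x1).im := by
  rw [Sx_im]
  unfold T
  refine sum_congr rfl fun k _ => ?_
  rw [N926.Qd.tt_eq]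
  have : (16:ℚ)^k = 4^k * 4^k := by rw [← mul_pow]; norm_num
  rw [this]
  have h4 : (4:ℚ)^k ≠ 0 := by positivity
  field_simp

/-- **Q1** holds for every prime `p > 3`. -/
theorem result (p : ℕ) [Fact p.Prime] (p3 : 3 < p) :
    -- (a)
    (p % 12 = 7 → (∃ x y : ℤ, (p : ℤ) = x ^ 2 + 3 * y ^ 2 ∧ y % 4 = 1) ∧
      ∀ x y : ℤ, (p : ℤ) = x ^ 2 + 3 * y ^ 2 → y % 4 = 1 →
        Congr p 2 (S p) ((-1) ^ ((p + 1) / 4) * (4 * (y : ℚ) - p / (3 * (y : ℚ)))) ∧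
        Congr p 2 (T p) ((-1) ^ ((p - 3) / 4) * (6 * (y : ℚ) - 7 * p / (3 * (y : ℚ))))) ∧
    -- (b)
    (p % 12 = 1 → Congr p 2 (S p) 0) := by
  have hp : p.Prime := Fact.out
  have h2 : p ≠ 2 := by omega
  have hS : ∀ {h : ℕ}, p = 2*h+1 → Dv p 2 (S p - (Sx N926.Qd.tt (h+1) N926.Qd.x1).im) := by
    intro h hh
    have := tail h2 hh (fun _ => 1) (fun _ => Dv.one)
    simp only [one_mul] at this
    rw [S_eq]
    exact this
  have hT : ∀ {h : ℕ}, p = 2*h+1 → Dv p 2 (T p - (Sx (fun k => k * N926.Qd.tt k) (h+1) N926.Qd.x1).im) := by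
    intro h hh
    have := tail h2 hh (fun k => (k:ℚ)) (fun k => Dv.nat k)
    rw [T_eq]
    exact this
  refine ⟨?_, ?_⟩
  · intro h
    obtain ⟨i, hi⟩ : ∃ i, p = 6*i+1 := ⟨p/6, by omega⟩
    have i1 : 1 ≤ i := by omega
    have hodd : i % 2 = 1 := by omega
    obtain ⟨j, hj⟩ : ∃ j, 3*i = 2*j+1 := ⟨(3*i)/2, by omega⟩
    have hh : p = 2*(3*i)+1 := by omega
    refine ⟨?_, ?_⟩
    · obtain ⟨X, Y, -, hXY⟩ := rep p hi i1
      have hY : Y % 2 = 1 := by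
        by_contra hc
        obtain ⟨a, ha⟩ : ∃ a, Y = 2*a := ⟨Y/2, by omega⟩
        have h5 : ∃ b, X^2 = 4*b ∨ X^2 = 4*b+1 := by
          rcases Int.even_or_odd X with ⟨b, hb⟩ | ⟨b, hb⟩
          · exact ⟨b^2, Or.inl (by rw [hb]; ring)⟩
          · exact ⟨b^2+b, Or.inr (by rw [hb]; ring)⟩
        obtain ⟨b, hb⟩ := h5
        have h6 : (p:ℤ) = X^2 + 4*(3*a^2) := by rw [← hXY, ha]; ring
        omega
      have hY4 : Y % 4 = 1 ∨ (-Y) % 4 = 1 := by omega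
      rcases hY4 with hY | hY
      · exact ⟨X, Y, hXY.symm, hY⟩
      · exact ⟨X, -Y, by rw [← hXY]; ring, hY⟩
    · intro x y hxy hy
      have e1 : (p+1)/4 = j+1 := by omega
      have e2 : (p-3)/4 = j := by omega
      have main : ∀ x' : ℤ, x'^2 + 3*y^2 = p → x' % 3 = 1 →
          Congr p 2 (S p) ((-1) ^ ((p + 1) / 4) * (4 * (y : ℚ) - p / (3 * (y : ℚ)))) ∧
          Congr p 2 (T p) ((-1) ^ ((p - 3) / 4) * (6 * (y : ℚ) - 7 * p / (3 * (y : ℚ)))) := by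
        intro x' hx' hx3
        obtain ⟨a, b⟩ := part_a p3 hi i1 hodd hj hx' hx3 hy
        rw [e1, e2]
        refine ⟨congr_of_Dv (Dv_eq ?_ ((hS hh).add a)), congr_of_Dv (Dv_eq ?_ ((hT hh).add b))⟩
        · ring
        · ring
      have hX : x % 3 = 1 ∨ x % 3 = 2 := by
        have h0 : x % 3 ≠ 0 := by
          intro h0
          obtain ⟨c, hc⟩ : (3:ℤ) ∣ x := Int.dvd_of_emod_eq_zero h0
          have : (3:ℤ) ∣ p := ⟨3*c^2 + y^2, by rw [hxy, hc]; ring⟩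
          have h4 : (3:ℕ) ∣ p := by exact_mod_cast this
          omega
        omega
      rcases hX with hX | hX
      · exact main x hxy.symm hX
      · exact main (-x) (by rw [hxy]; ring) (by omega)
  · intro h
    obtain ⟨i, hi⟩ : ∃ i, p = 6*i+1 := ⟨p/6, by omega⟩
    have i1 : 1 ≤ i := by omega
    have hev : i % 2 = 0 := by omega
    have hh : p = 2*(3*i)+1 := by omega
    have a := first_even p3 hi i1 hev
    refine congr_of_Dv (Dv_eq ?_ ((hS hh).add a))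
    ring

end Pool.Agent.Results.MP_d636e9_nt.AllThree
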